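import Pool.Agent.T9h39.PZ.Spec

/-!
# The rank of the incidence map of two partitions
-/

set_option autoImplicit false

namespace Pool.Agent.T9h34.PZ

open Finset
open Pool.Agent.T9h39.PZ

section

variable {k : ℕ} {X A : Type} [Fintype X] [AddCommGroup A]

open Classical in
/-- Part sums for `σ` and minus the part sums for `σ'`. -/
noncomputable def TT (A : Type) [AddCommGroup A] (σ σ' : X → Fin k) :
    (X → A) →+ (Fin k ⊕ Fin k → A) where
  toFun v := Sum.elim (fun i => ∑ x ∈ univ.filter (fun x => σ x = i), v x)
    (fun i => - ∑ x ∈ univ.filter (fun x => σ' x = i), v x)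
  map_zero' := by
    funext u
    rcases u with i | i <;> simp
  map_add' v w := by
    funext u
    rcases u with i | i
    · simp [sum_add_distrib]
    · simp [sum_add_distrib]
      abel

/-- The generating relation. -/
def rel (σ σ' : X → Fin k) (u w : Fin k ⊕ Fin k) : Prop :=
  ∃ x, u = Sum.inl (σ x) ∧ w = Sum.inr (σ' x)

theorem TT_single [DecidableEq X] (σ σ' : X → Fin k) (x : X) (t : A) :
    TT A σ σ' (Pi.single x t) = Pi.single (Sum.inl (σ x)) t - Pi.single (Sum.inr (σ' x)) t := by
  classical
  funext u
  rcases u with i | i
  · simp only [TT, AddMonoidHom.coe_mk, ZeroHom.coe_mk, Sum.elim_inl, Pi.sub_apply]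
    rw [Pi.single_eq_of_ne (i := Sum.inr (σ' x)) (by simp)]
    by_cases h : σ x = i
    · subst h
      rw [Pi.single_eq_same, sub_zero, sum_eq_single x]
      · simp
      · intro b _ hb
        simp [hb]
      · simp
    · rw [Pi.single_eq_of_ne (by simpa using fun h' => h h'.symm), sub_zero]
      apply sum_eq_zero
      intro y hy
      rw [mem_filter] at hy
      have : y ≠ x := by
        rintro rfl
        exact h hy.2
      simp [this]
  · simp only [TT, AddMonoidHom.coe_mk, ZeroHom.coe_mk, Sum.elim_inr, Pi.sub_apply]
    rw [Pi.single_eq_of_ne (i := Sum.inl (σ x)) (by simp)]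
    by_cases h : σ' x = i
    · subst h
      rw [Pi.single_eq_same, zero_sub, sum_eq_single x]
      · simp
      · intro b _ hb
        simp [hb]
      · simp
    · rw [Pi.single_eq_of_ne (by simpa using fun h' => h h'.symm), sub_zero, neg_eq_zero]
      apply sum_eq_zero
      intro y hy
      rw [mem_filter] at hy
      have : y ≠ x := by
        rintro rfl
        exact h hy.2
      simp [this]

theorem single_sub_mem (σ σ' : X → Fin k) (u w : Fin k ⊕ Fin k)
    (h : Relation.EqvGen (rel σ σ') u w) (t : A) :
    (Pi.single u t - Pi.single w t : Fin k ⊕ Fin k → A) ∈ (TT A σ σ').range := by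
  classical
  induction h with
  | rel u w h =>
    obtain ⟨x, rfl, rfl⟩ := h
    exact ⟨Pi.single x t, TT_single σ σ' x t⟩
  | refl u => simp
  | symm u w _ ih =>
    have := (TT A σ σ').range.neg_mem ih
    rwa [neg_sub] at this
  | trans u v w _ _ ih ih' =>
    have := (TT A σ σ').range.add_mem ih ih'
    rwa [sub_add_sub_cancel] at this

end

open Classical in
theorem rank : S_Rank := by
  intro k X A _ _ _ σ σ' hσ hσ'
  let st : Setoid (Fin k ⊕ Fin k) := Relation.EqvGen.setoid (rel σ σ')
  have hex : ∀ q : Quotient st, ∃ i : Fin k, Quotient.mk st (Sum.inl i) = q := by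
    intro q
    induction q using Quotient.inductionOn with
    | _ u =>
      rcases u with i | i
      · exact ⟨i, rfl⟩
      · obtain ⟨x, rfl⟩ := hσ' i
        exact ⟨σ x, Quotient.sound (Relation.EqvGen.rel _ _ ⟨x, rfl, rfl⟩)⟩
  choose c hc using hex
  have hcinj : Function.Injective c := by
    intro q q' h
    rw [← hc q, ← hc q', h]
  refine ⟨fun i => c (Quotient.mk st (Sum.inl i)), fun i => c (Quotient.mk st (Sum.inr i)), ?_, ?_, ?_⟩
  · intro x
    exact congrArg c (Quotient.sound (Relation.EqvGen.rel _ _ ⟨x, rfl, rfl⟩))
  · intro r hr i h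
    have h1 : Quotient.mk st (Sum.inl i) = Quotient.mk st (Sum.inl r) := hcinj h
    have h2 : Relation.EqvGen (rel σ σ') (Sum.inl i) (Sum.inl r) := Quotient.exact h1
    have key : ∀ u w, Relation.EqvGen (rel σ σ') u w →
        ((u = Sum.inl r ∨ u = Sum.inr r) ↔ (w = Sum.inl r ∨ w = Sum.inr r)) := by
      intro u w h
      induction h with
      | rel u w h =>
        obtain ⟨x, rfl, rfl⟩ := h
        simpa using hr x
      | refl u => rfl
      | symm u w _ ih => exact ih.symm
      | trans u v w _ _ ih ih' => exact ih.trans ih'
    have h3 := (key _ _ h2).2 (Or.inl rfl)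
    simpa using h3
  · intro a a'
    have himg : (univ.image fun i => c (Quotient.mk st (Sum.inl i))).card =
        Fintype.card (Quotient st) := by
      have : (univ.image fun i => c (Quotient.mk st (Sum.inl i))) = univ.image c := by
        ext j
        simp only [mem_image, mem_univ, true_and]
        constructor
        · rintro ⟨i, rfl⟩
          exact ⟨_, rfl⟩
        · rintro ⟨q, rfl⟩
          exact ⟨c q, by rw [hc q]⟩
      rw [this, card_image_of_injective _ hcinj, card_univ]
    rw [himg]
    -- the second map
    let S : (Quotient st → A) →+ (Fin k ⊕ Fin k → A) :=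
      { toFun := fun s => ∑ q, Pi.single (Sum.inl (c q)) (s q)
        map_zero' := by simp
        map_add' := fun s s' => by
          rw [← sum_add_distrib]
          exact sum_congr rfl fun q _ => by simp [Pi.single_add] }
    have htop : ∀ w : Fin k ⊕ Fin k → A, w ∈ (TT A σ σ').range ⊔ S.range := by
      intro w
      have hw : w = ∑ u, Pi.single u (w u) := (Finset.univ_sum_single w).symm
      rw [hw]
      apply AddSubgroup.sum_mem
      intro u _
      have h1 : (Pi.single u (w u) - Pi.single (Sum.inl (c (Quotient.mk st u))) (w u) :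
          Fin k ⊕ Fin k → A) ∈ (TT A σ σ').range := by
        apply single_sub_mem
        exact Quotient.exact (hc (Quotient.mk st u)).symm
      have h2 : (Pi.single (Sum.inl (c (Quotient.mk st u))) (w u) : Fin k ⊕ Fin k → A) ∈
          S.range := by
        refine ⟨Pi.single (Quotient.mk st u) (w u), ?_⟩
        change ∑ q, (Pi.single (Sum.inl (c q)) ((Pi.single (Quotient.mk st u) (w u) :
          Quotient st → A) q) : Fin k ⊕ Fin k → A) = _
        rw [sum_eq_single (Quotient.mk st u)]
        · simp
        · intro b _ hb
          simp [hb]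
        · simp
      have := AddSubgroup.add_mem_sup h1 h2
      rwa [sub_add_cancel] at this
    have hcard1 : Fintype.card A ^ (2 * k) ≤
        Nat.card (TT A σ σ').range * Fintype.card A ^ Fintype.card (Quotient st) := by
      have hs : Function.Surjective
          (fun p : (TT A σ σ').range × (Quotient st → A) => (p.1 : Fin k ⊕ Fin k → A) + S p.2) := by
        intro w
        obtain ⟨y, hy, z, ⟨s, rfl⟩, rfl⟩ := AddSubgroup.mem_sup.1 (htop w)
        exact ⟨(⟨y, hy⟩, s), rfl⟩
      have := Nat.card_le_card_of_surjective _ hs
      rw [Nat.card_prod] at this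
      have e1 : Nat.card (Fin k ⊕ Fin k → A) = Fintype.card A ^ (2 * k) := by
        rw [Nat.card_eq_fintype_card, Fintype.card_fun, Fintype.card_sum, Fintype.card_fin]
        ring_nf
      have e2 : Nat.card (Quotient st → A) = Fintype.card A ^ Fintype.card (Quotient st) := by
        rw [Nat.card_eq_fintype_card, Fintype.card_fun]
      rwa [e1, e2] at this
    have hcard2 : Nat.card (TT A σ σ').ker * Nat.card (TT A σ σ').range =
        Fintype.card A ^ Fintype.card X := by
      rw [← AddSubgroup.index_ker, AddSubgroup.card_mul_index, Nat.card_eq_fintype_card,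
        Fintype.card_fun]
    have hcard3 : (univ.filter fun v : X → A => Sums v σ a ∧ Sums v σ' a').card ≤
        Nat.card (TT A σ σ').ker := by
      have e3 : (univ.filter fun v : X → A => Sums v σ a ∧ Sums v σ' a').card =
          Nat.card {v : X → A // Sums v σ a ∧ Sums v σ' a'} := by
        rw [Nat.card_eq_fintype_card, Fintype.card_subtype]
      rw [e3]
      have hT : ∀ v : X → A, Sums v σ a ∧ Sums v σ' a' →
          TT A σ σ' v = Sum.elim a (fun i => - a' i) := by
        rintro v ⟨h1, h2⟩
        funext u
        rcases u with i | i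
        · have := h1 i
          simp only [TT, AddMonoidHom.coe_mk, ZeroHom.coe_mk, Sum.elim_inl]
          convert this
        · have := h2 i
          simp only [TT, AddMonoidHom.coe_mk, ZeroHom.coe_mk, Sum.elim_inr, neg_inj]
          convert this
      rcases isEmpty_or_nonempty {v : X → A // Sums v σ a ∧ Sums v σ' a'} with h | ⟨⟨v₀, hv₀⟩⟩
      · simp
      · refine Nat.card_le_card_of_injective
          (fun v : {v : X → A // Sums v σ a ∧ Sums v σ' a'} =>
            (⟨v.1 - v₀, by
              rw [AddMonoidHom.mem_ker, map_sub, hT _ v.2, hT _ hv₀, sub_self]⟩ :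
              (TT A σ σ').ker)) ?_
        intro v w hvw
        have := congrArg Subtype.val hvw
        exact Subtype.ext (sub_left_injective this)
    calc (univ.filter fun v : X → A => Sums v σ a ∧ Sums v σ' a').card * Fintype.card A ^ (2 * k)
        ≤ Nat.card (TT A σ σ').ker * (Nat.card (TT A σ σ').range *
          Fintype.card A ^ Fintype.card (Quotient st)) := Nat.mul_le_mul hcard3 hcard1
      _ = _ := by rw [← mul_assoc, hcard2, ← pow_add]

end Pool.Agent.T9h34.PZ
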